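import Pool.Agent.Y132.AF.Main

/-!
# The Tate conjecture for all products with powers: finitely many of them suffice

Let `X i` be varieties of odd dimension (any number of them) whose transcendental cohomology `T i`
is in the middle degree, and such that the Galois group acts irreducibly on the Lie algebra
`sp (T i)` of the operators which are skew with respect to the intersection form (or `dim (T i) = 2`
and `T i` is irreducible for all subgroups of finite index). For example, curves of any genus with
large Galois image, odd-dimensional hypersurfaces and complete intersections with large monodromy,
elliptic curves without complex multiplication, rigid Calabi-Yau threefolds. Suppose that the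
representations `sp (T i)` are pairwise non-isomorphic, and let `Z` be any variety. The Tate
conjecture for the products `Z × X i₁ ^ n₁ × ⋯ × X iᵣ ^ nᵣ` with arbitrary exponents is reduced to
finitely many of these products.

* There is a set `B` of indices, independent of the product, with `∑ i ∈ B, dim (T i) ≤ dim H(Z)`,
  such that the Tate conjecture for a product `Y` is equivalent to the Tate conjecture for those of
  its subproducts `Z × ∏ X i ^ m i` for which all `i` are in `B` and, for some degree `m` of the
  parity of `∑ m i dim X i`, one has `∏ (m i + 1) ≤ dim H^m(Z)`, `∑ dim (T i) ≤ dim H^m(Z)` and
  `∑ m i δ i ≤ min (m, 2 dim Z - m)`, where `δ i / 2` is the distance of the Frobenius slopes on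
  `T i` from `dim X i / 2` at some place (so `δ i = 1` for curves at the ordinary places).
* In particular the Tate conjecture for `Z` implies the Tate conjecture for all products of `Z`
  with powers of the `X i`, `i` not in `B`, for example of all the `X i` for which `dim (T i)` is
  greater than all the `dim H^m(Z)`. For `Z` a point one gets the Tate conjecture for all products
  of powers of the `X i`.
* If `Z` is a curve, one needs only the surfaces `Z × X i`, `i ∈ B` (at places where the varieties
  are ordinary); if `Z` is a surface, one needs only the products `Z × X i` and `Z × X i × X j`.

In the degrees `i = 2 ν` the generalized Tate conjecture (over all finite extensions of the field) is the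
Tate conjecture: a representation of finite image which is effective of weight `0` after the twist by
`ν` is spanned by classes which are invariant under an open subgroup.

The framework is that of a Weil cohomology theory with coefficients in an algebraically closed field
(for example `ℓ`-adic cohomology with coefficients in an algebraic closure of `ℚ_ℓ`) with actions of
a group `Γ` (the Galois group) on the cohomology algebras. Nothing is assumed about `Z`, except that
`Γ` preserves the degrees; in particular the action need not be semisimple.
-/

open CategoryTheory AlgebraicGeometry

universe u

namespace Pool.Agent.Results.MP_8abef2_ag.AdjointFamilies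

open Pool.Agent.H914 Pool.Agent.H914.VarClass Pool.Agent.H914.WeilCohomology
  Pool.Agent.TH125.Gal Pool.Agent.Y132.AF

/-- For every family of odd-dimensional varieties `X i` with irreducible and pairwise non-isomorphic
adjoint representations and every variety `Z` there is a set `B` of indices for which the ranks of
the transcendental cohomologies of the `X i` have a sum at most `dim H(Z)`, such that the Tate
conjecture for any product `Y` of `Z` with copies of the `X i` is equivalent to the Tate conjecture
for the subproducts given by small lists. -/
theorem result {k : Type u} [Field k] {𝒱 : VarClass k} {ops : CycleOps 𝒱}
    {W : WeilCohomology.{u, 0} ops} [IsAlgClosed W.K] {Γ : Type} [Group Γ] {χ : Γ →* W.Kˣ}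
    {ι : Type} [DecidableEq ι] {X : ι → GVar W Γ} {Z : GVar W Γ} (hX : AdFamily χ X)
    (hZ : GradedVar Z) :
    ∃ B : Finset ι, ∑ i ∈ B, trRank (X i) ≤ totRank Z ∧
      ∀ (L : List ι) (Y : GVar W Γ), IsTower X Z L Y →
        (TateConjecture χ Y ↔ ∀ (L' : List ι) (Y' : GVar W Γ), L'.Sublist L →
          SmallList χ X Z B L' → IsTower X Z L' Y' → TateConjecture χ Y') :=
  tate_iff hX hZ

end Pool.Agent.Results.MP_8abef2_ag.AdjointFamilies
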