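import Pool.Agent.Y128.GT.Fin
import Pool.Agent.TH776.FL.Main

/-!
# The generalized Tate conjecture over number fields for all powers of an abelian variety with an
# ordinary place

Let `A` be an abelian variety of any dimension over a number field, with good ordinary reduction at
ONE place with a residue field of `q = p ^ a` elements. Suppose

* that all Tate classes on all powers of `A` are linear combinations of products of classes of
  divisors (`TateGeneratedInDegreeTwo`) and that no simple factor of `A` is of type III or IV in the
  classification of Albert (`SymplecticConstituents`), or
* that all the endomorphisms of `A` over the algebraic closure are fixed by the Rosati involution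
  (`RosatiTrivial`; for instance `End(A) = ℤ` or `A` simple of type I), that the Frobenius polynomial
  at the place has no multiple roots, and that its roots satisfy only trivial relations of length
  four.

Then the generalized Tate conjecture holds for all powers `A ^ n`, in all degrees `i` and for all
levels `ν`: a subspace `U` of `H^i(A^n, ℚ_ℓ)` which is stable under the Galois group and whose twist
`U(ν)` is effective (it suffices: at the given place) is contained in the span of the products
`B 1 ∧ ... ∧ B ν ∧ η`, where `B s` are Tate classes of degree two (divisor classes, by the theorem of
Faltings) and `η` is any class of degree `i - 2 ν`. These products are supported on closed subsets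
of codimension `ν`.

In the Lean statement `V` is the rational Tate module with the action `ρ` of the Galois group, `ω`
the Weil pairing of a polarization, `χ` the cyclotomic character and `γ` the (arithmetic) Frobenius
element. The theorems of Weil (semisimplicity of the Frobenius element) and of Faltings (`V` is
semisimple) are hypotheses, in `OrdinaryFrobenius` and `IsTateModule`.

Idea. Over an algebraic closure of `ℚ_ℓ` the Tate module is a sum of copies of pairwise
non-isomorphic symplectic representations `W i`, and it suffices to consider forms on `E = ⨁ W i`.
The Frobenius element gives a basis of eigenvectors with slopes `0` and `1` and a decomposition of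
`E` in two Lagrangian subspaces. Since the Tate classes are known, the Lie algebra of the
endomorphisms which kill them is the product of the symplectic Lie algebras of the `W i`; it
normalizes the spaces of forms stable under subgroups of finite index, and these have stable
complements. If `U` is such a space of forms, of positive coniveau, and `P` an equivariant projection
to `U`, the composite of the tensor `P` with the restriction to the subspace of slope zero vanishes.
As a form in two groups of variables `P` is a Tate form, so a combination of products of bilinear
Tate forms; those which pair the variables of the second group with each other lie in the ideal, and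
for the other (mixed) ones an argument with Young symmetrizers (a variant of the second fundamental
theorem: a mixed form which vanishes on the Lagrangian subspace is in the ideal of the bilinear
invariants) shows that `U` is in the ideal generated by the Tate classes of degree two. Induction
on `ν` gives the `ν`-th power of the ideal.
-/

namespace Pool.Agent.Results.MP_8abef2_ag.NumberFieldPowers

open Pool.Agent.H204R3.GP Pool.Agent.TH776.FM Pool.Agent.TH776.FL Pool.Agent.W516.FT
  Pool.Agent.Y128.GT

/-- The generalized Tate conjecture for all powers of an abelian variety with an ordinary place. -/
theorem result {k V Γ : Type} [Field k] [CharZero k] [AddCommGroup V] [Module k V]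
    [FiniteDimensional k V] [Group Γ] (ρ : Representation k Γ V) (χ : Γ →* k)
    (ω : V →ₗ[k] V →ₗ[k] k) (hA : IsTateModule ρ χ ω) (p a : ℕ) [Fact p.Prime] (ha : 0 < a)
    (γ : Γ) (hγ : OrdinaryFrobenius ρ χ p a γ)
    (h : (TateGeneratedInDegreeTwo ρ χ ∧ SymplecticConstituents ρ χ) ∨
      (RosatiTrivial ρ ω ∧ ∃ P : Polynomial ℚ, P.Separable ∧
        (ρ γ).charpoly = P.map (algebraMap ℚ k) ∧ OnlyTrivialRelationsOfLengthFour P (p ^ a)))
    (n i ν : ℕ) (U : Submodule k ((Fin n → V) [⋀^Fin i]→ₗ[k] k))
    (hU : ∀ s, ∀ f ∈ U, pull (ρ s) f ∈ U)
    (hE : EffectiveTwist p a i ν (pull (ρ γ)) U (hU γ)) :
    U ≤ Submodule.span k (divisorProducts ρ χ n i ν) := by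
  rcases h with ⟨h1, h2⟩ | ⟨h1, P, h2, h3, h4⟩
  · exact main_gtc hA h1 h2 p a ha γ hγ n i ν U hU hE
  · exact main_gtc hA (tate_of_rosati hA (by rw [hγ.cyc]; push_cast; rfl) h2 h3 h4 h1)
      (symplectic_of_rosati hA h1) p a ha γ hγ n i ν U hU hE

end Pool.Agent.Results.MP_8abef2_ag.NumberFieldPowers
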