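import Pool.Agent.Y107.GC.Main

/-!
# The generalized Tate conjecture for products with hypersurfaces of large Chow coniveau

`𝒱` is a class of smooth projective geometrically irreducible varieties over an algebraically closed
field closed under products (for example all of them), `C` the Chow groups with rational coefficients
(in the form of their formal properties, `IsChowProj`), `T` a cohomology theory with coefficients `K`
(in the form of the action of correspondences, `IsCoh`) and `E` the Galois coniveau (over the algebraic
closure of a number field or a finite field) or the Hodge coniveau, in the form of its formal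
properties (`IsConiveauSystem`).

Let `V` be a hypersurface (or complete intersection) whose primitive motive has Chow coniveau `c`. The
generalized Tate conjecture holds for `V` in all levels `ν ≤ c` (in all levels if `dim V ≤ 2 c + 1`),
and, in the levels `ν ≤ c` and all degrees, it holds for `V × Y` if and only if it holds for `Y`, for
all varieties `Y`. This applies to the hypersurfaces `f_0(x_0) + ... + f_r(x_r) = 0` and
`f_0(x_0) + ... + f_r(x_r) = z^d`: by the theorem on the diagrams of Shioda and Katsura the Chow
coniveaus of the `f_s(x_s) = z^d` add up.
-/

open CategoryTheory AlgebraicGeometry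

set_option autoImplicit false

universe u v w

namespace Pool.Agent.Results.MP_8abef2_ag.SumsOfFormsTimesVariety

open Pool.Agent.H914 Pool.Agent.W492.BB Pool.Agent.TH133 Pool.Agent.Y107 Pool.Agent.Y107.GC
  Pool.Agent.Y107.SJ

/-- The generalized Tate conjecture in the levels `ν ≤ c` holds for varieties like hypersurfaces of
Chow coniveau `c`, and is the same for `Y` and for the product of `Y` with such a variety; the Chow
coniveaus add up for sums of forms in disjoint sets of variables. -/
theorem result {k : Type u} [Field k] {𝒱 : VarClass k} (C : TheoryData.{u, v, 0} 𝒱 ℚ)
    [IsChowProj C] {K : Type w} [Field K] [CharZero K] (T : CohData.{u, v, w} C K) (hT : IsCoh T)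
    (E : ∀ X : 𝒱.Obj, ℤ → ℤ → Submodule K (T.H X)) (hE : IsConiveauSystem E) :
    (∀ (V : Pol C) (c : ℕ), HasConiveau V c → TransparentPol E c V) ∧
    ∀ (α : ℕ → ℕ) (Y X y x x' : ℕ → Pol C), IsTower α Y X y x x' → ∀ r : ℕ,
      TransparentPol E (total α r) (X r) ∧ TransparentPol E (total α r - 1) (Y r) ∧
        ∀ s ≤ r, HasConiveau (y s) (α s) → TransparentPol E (total α r) (Y r) :=
  ⟨fun _ _ hc => transparent hT hc hE, fun _ _ _ _ _ _ h r =>
    ⟨transparent hT (tower h r).1 hE, transparent hT (tower h r).2 hE,
    fun s hs hy => transparent hT (tower' h r s hs hy) hE⟩⟩

end Pool.Agent.Results.MP_8abef2_ag.SumsOfFormsTimesVariety
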