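import Pool.Agent.Y134.GT.Tate

/-!
# The generalized Tate conjecture for cyclic coverings and the torsion of the branch divisor

Let `W` be a Weil cohomology theory with coefficients in a field `K` (étale cohomology with coefficients
in `K = ℚ_p`) on a class of smooth projective varieties over the algebraic closure of a number
field, with an action of a group `Γ` (the Galois group) on the cohomology of the variety `X` under
consideration; `χ` is the action on `K(-1)` and `Fr` a set of elements of `Γ` (the geometric
Frobenius elements at the places of good reduction; `χ(g)` is the norm `q` of the place).

Let `X` be a variety of dimension `n`, even or odd, whose cohomology is the orthogonal sum of a space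
spanned by some algebraic classes and of a subspace `P` of the cohomology in degree `n`: for instance a
cyclic covering of projective space (`P` is the part without invariants under the group of the
covering), or a hypersurface (`P` is the primitive cohomology). Suppose that `P` is a vector space over an
extension `K₀` of `K` on which `Γ` acts `K₀`-linearly (`IsScalarExt`), and that there are (`IsOneSubM`)

* a local subring `R` of `K₀` with the maximal ideal `l R`, stable under an endomorphism `τ` of `K₀`,
  and a nondegenerate hermitian or skew hermitian form `h` on `P` with respect to `τ` (for `τ = id`: a
  symmetric or alternating form) which is invariant under `Γ` up to a multiplier;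
* a lattice `Λ` in `P`, stable under `Γ`, on which `h` is integral, and a vector `r` in `Λ` whose class
  generates the radical of the reduction of `h` on `Λ / l Λ`, where `h(r, r) / l` is a unit, or
  `r = 0` (and then `h` is unimodular on `Λ`);
* `Λ / l Λ` contains no subspace which is stable under `Γ`, except for `0`, `Λ / l Λ` and the
  subspace generated by the class of `r`;

and that for one Frobenius element `g` in `Fr` the operator `χ(g)⁻¹ g` is not integral on `P`, that is,
some Frobenius eigenvalue on `P` is not divisible by `q` (otherwise `P(1)` would be entire, and the
generalized Tate conjecture would predict that `P` comes from a divisor).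

For `i` and `ν` let `coniveau i ν` be the sum of all subspaces `U` of `H^i(X)` which are stable under the
Galois group and such that `U(ν)` is entire: the operators `χ(g) ^ (- ν) g`, `g` in `Fr`, are
integral on `U`, that is, satisfy monic equations with integral coefficients. (This contains the
filtration `N^ν_ℓ` of the problem, in which `U(ν)` is also of weight `i - 2 ν`, and its dual is
also entire.)

**Theorem.** `coniveau i ν`, for all `i` and all `ν ≥ 1`, is contained in the span of the algebraic classes
of codimension `i / 2` if `i` is even, and it is zero if `i` is odd. In particular (since the class of a
cycle of codimension `i / 2` has geometric coniveau `i / 2`) the generalized Tate conjecture,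
`N^ν H^i = N^ν_ℓ H^i`, holds for `X` in all degrees `i` and for all `ν`. Moreover the Tate conjecture
holds for `X` over all finite extensions, in all codimensions.

The main case. Let `p` be a prime number, `k` a number field which contains the `p`-th roots of
unity, and `B` a smooth hypersurface in `ℙ^n` over `k` whose degree is divisible by `p`; let `X` be the
cyclic covering of degree `p` of `ℙ^n` which is branched along `B`, `w ^ p = f`, and `K = ℚ_p`,
`K₀ = ℚ_p(ζ_p)`. The elements with trace `0` in `H^n(X, ℤ_p)` are a module over `R = ℤ_p[ζ_p]` with a
hermitian or skew hermitian form which comes from the intersection form. Let `H` be the primitive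
part `u^⊥ / u` of `H^(n-1)(B, 𝔽_p)` with respect to the class `u = h^((n-1)/2)` if `n` is odd (`u` is
isotropic, since the degree is divisible by `p`), and `H = H^(n-1)(B, 𝔽_p)` if `n` is even. If `n` is
odd, the lattice is unimodular and its reduction is `H`. If `n` is even, then its discriminant is
`λ = 1 - ζ_p`, up to a unit, and its reduction is an extension of `H` by the trivial module `𝔽_p r`,
dual to the extension `0 → H → H^n_c(ℙ^n \ B, 𝔽_p(n/2)) → 𝔽_p → 0`. So:

*If the Galois module `H` is irreducible (and, for even `n`, the last extension does not split) and if
some Frobenius eigenvalue on `H^n(X)` is not divisible by `q`, then the generalized Tate conjecture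
for the prime `p` holds for `X` in all degrees.*

For `n = 1` the first condition is the condition in Zarhin's theorems on superelliptic Jacobians (the
heart of the permutation module of the branch points is irreducible); for `n = 2` it is the
irreducibility of `J(B)[p]`, and the extension is the one of the `p`-th roots of the class `O_B(1)`,
for `p = 2` of the theta characteristics of the branch curve `B`. For hypersurfaces (and complete
intersections) of degree `d` one can take `K = K₀ = ℚ_l` for a prime number `l` which divides `d`
at most once, or any `l` if the dimension is odd.

Proof. As in the theorem `TorsionOfBranchDivisor` it follows that `P` is irreducible under `Γ` over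
`K₀` (for a subspace `U` and its orthogonal complement, one reduces modulo `l` to a part of the line of
`r`, etc.). But a stable `K`-subspace of `P` can be smaller. Let `U` be stable with `U(ν)` entire,
`ν ≥ 1`, and let `S` be its image in `P` (a `K`-subspace). If `S` is not zero then `K₀ S` is everything;
so the monic equation with integral coefficients of `χ(g) ^ (- ν) g` on `U` is satisfied on `S`, and
hence on `K₀ S = P`, since `g` acts `K₀`-linearly; since `χ(g)` is an integer, `χ(g)⁻¹ g` is then
integral on `P`, a contradiction. So `U` is in the orthogonal complement of `P`, which is spanned by
algebraic classes. The orbit of a Tate class of degree `n` spans a stable subspace `U` on which the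
`χ(g) ^ (- n/2) g` are of finite order, and so integral.
-/

set_option autoImplicit false

universe u

namespace Pool.Agent.Results.MP_8abef2_ag.TorsionAndConiveau

open Pool.Agent.H914 Pool.Agent.H914.VarClass.Obj Pool.Agent.H281R3.HT Pool.Agent.TH125.Gal
  Pool.Agent.Y134.TF Pool.Agent.Y134.GT

/-- **The generalized Tate conjecture from the torsion of the branch divisor.** -/
theorem result {k : Type u} [Field k] {𝒱 : VarClass k} {ops : CycleOps 𝒱}
    {W : WeilCohomology.{u, 0} ops} {Γ : Type} [Group Γ] {χ : Γ →* W.Kˣ} {X : PVar W Γ}
    {Fr : Set Γ} (h : Level χ X Fr) (hpos : 0 < X.X.dim) :
    (∀ j ν, 1 ≤ ν → coniveau χ X.toGVar Fr (2 * j) ν ≤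
      Submodule.span W.K (algClasses W X.X j)) ∧
    (∀ i ν, Odd i → 1 ≤ ν → coniveau χ X.toGVar Fr i ν = ⊥) ∧
    TateConjecture χ X.toGVar :=
  ⟨fun j ν hν => coniveau_even h j ν hν, fun _ ν hi hν => coniveau_odd h hi ν hν, tate h hpos⟩

end Pool.Agent.Results.MP_8abef2_ag.TorsionAndConiveau
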